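import Pool.Agent.U849.DG.Main

/-!
# The theorem of Deligne and Serre for all L-groups over all number fields

Let `G` be a connected reductive group over the number field `F`, split over the finite Galois extension `F'`, with
`Δ = Gal(F'/F)`; its L-group (finite Galois form) is a group scheme over the integers, which we embed in `GL_n`. Let `Π`
be an L-algebraic automorphic representation of `G` whose Harish-Chandra parameters are zero, `E` a set of primes of `F`
of density zero containing the ramified ones, and assume that the Satake parameters `s_v`, `v ∉ E`, are defined over a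
number field `K`, as the points with integral coordinates of the quotient of the coset of Frobenius by conjugation:
`s P Q ∈ 𝓞 K` is the value of the invariant polynomial `Q` at `s_v`, where `P` is a place of the algebraic closure
above `v`. The mean values of `|σ (t v)| ^ 2`, `t v` the trace of `s_v` in the `n`-dimensional representation, are
supposed to be bounded for arbitrarily large `x`, for all embeddings `σ` of `K` (`IsSystem`; this is so if the conjugates
of `Π` are tempered, or if they have transfers to `GL_n`, by Rankin and Selberg).

**Theorem.** The following conditions are equivalent.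

* There are *two* primes `ℓ₁`, `ℓ₂` (or one, if the places above it are in `E`) for which an admissible `ℓ`-adic
  representation (for one embedding of `K`) with values in the L-group exists which is unramified and conjugate to `s_v`
  at all `v ∉ E` not above `ℓ`, or there are infinitely many primes `ℓ` with such semisimple representations modulo `ℓ`,
  with values in the L-group over a field of characteristic `ℓ`.
* There are a finite extension `L` of `K` and an admissible representation `R` with finite image in the `L`-points
  of the L-group which is unramified and conjugate to `s_v` at all `v ∉ E`.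

Then the conclusion of the conjecture of Buzzard and Gee holds for all primes `ℓ` and all embeddings `j` of `K`, with
finite images, at all `v ∉ E`, also at those above `ℓ`.

The representations need not be unramified at the infinitely many places of `E`, nothing is assumed there about the
Satake parameters, and all the conjugation invariant functions on the cosets are matched, not only the characteristic
polynomials of the representation of dimension `n`.

Proof. As in the paper of Deligne and Serre for `GL_2` over `ℚ` the mean squares bound the orders of the images of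
the representations modulo `ℓ`, here by an argument with finitely many traces in any dimension (starting files
`R401`, `U175`), with Chebotarev's theorem over `F` for natural densities (starting files). Instead of lifting the
representations modulo `ℓ`, we take a point with coordinates in a finite extension of `K` of the scheme of all
homomorphisms of the finite group to the L-group with the given invariants: it is of finite type over `K` and not empty, as
it has points in infinitely many characteristics. So the group need not be smooth, or even reductive.
-/

set_option autoImplicit false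

namespace Pool.Agent.Results.MP_666dc0_nt.DeligneSerreLGroups

open NumberField IsDedekindDomain Pool.Agent.U849.DG

variable {F : Type} [Field F] [NumberField F] {Δ : Type} [Group Δ] {n : ℕ} {K : Type} [Field K] [NumberField K]

/-- **What is known about the system.** Two `ℓ`-adic representations for different `ℓ`; or one, the primes above `ℓ`
being in `E`; or representations in infinitely many characteristics `ℓ`. -/
def Known (G : LGroup Δ n) (δ : Gam F →* Δ) (E : Set (HeightOneSpectrum (𝓞 F)))
    (s : Ideal (ZBar F) → Poly n → 𝓞 K) : Prop :=
  (∃ (ℓ₁ ℓ₂ : ℕ) (_ : Fact ℓ₁.Prime) (_ : Fact ℓ₂.Prime) (j₁ : K →+* PadicAlgCl ℓ₁) (j₂ : K →+* PadicAlgCl ℓ₂),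
    ℓ₁ ≠ ℓ₂ ∧ HasLadic G δ E s ℓ₁ j₁ ∧ HasLadic G δ E s ℓ₂ j₂) ∨
  (∃ (ℓ : ℕ) (_ : Fact ℓ.Prime) (j : K →+* PadicAlgCl ℓ), PrimesAbove F ℓ ⊆ E ∧ HasLadic G δ E s ℓ j) ∨
  {ℓ : ℕ | ℓ.Prime ∧ HasModular G δ E s ℓ}.Infinite

/-- **Deligne–Serre for L-groups over number fields, outside of a set of primes of density zero.** -/
theorem result (G : LGroup Δ n) (δ : Gam F →* Δ) (E : Set (HeightOneSpectrum (𝓞 F))) (hE : DensityZero E)
    (s : Ideal (ZBar F) → Poly n → 𝓞 K) (h : IsSystem n E s) :
    (Known G δ E s ↔ HasArtin G δ E s) ∧
    (HasArtin G δ E s → ∀ (ℓ : ℕ) [Fact ℓ.Prime] (j : K →+* PadicAlgCl ℓ),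
      ∃ ρ : Gam F →* GL (Fin n) (PadicAlgCl ℓ), Continuous ρ ∧ Semisimple ρ ∧ IsOpen (ρ.ker : Set (Gam F)) ∧
        Admissible G δ ρ ∧ ∀ v, v ∉ E → MatchesAt G δ ρ v (fun P Q => j (s P Q))) := by
  refine ⟨⟨?_, fun hA => Or.inl ?_⟩, fun hA ℓ _ j => ladic_of_artin hA ℓ j⟩
  · rintro (⟨ℓ₁, ℓ₂, i₁, i₂, j₁, j₂, hne, h₁, h₂⟩ | ⟨ℓ, i, j, hℓ, hl⟩ | hmod)
    · exact artin_of_two h hE hne h₁ h₂
    · have h1 := artin_of_ladic h hE hl
      rwa [Set.union_eq_self_of_subset_right hℓ] at h1
    · exact artin_of_modular h hE hmod
  · have key : ∀ (ℓ : ℕ) [Fact ℓ.Prime], ∃ j : K →+* PadicAlgCl ℓ, HasLadic G δ E s ℓ j := by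
      intro ℓ _
      let j : K →+* PadicAlgCl ℓ := (IsAlgClosed.lift : K →ₐ[ℚ] PadicAlgCl ℓ).toRingHom
      obtain ⟨ρ, h1, h2, -, h3, h4⟩ := ladic_of_artin hA ℓ j
      exact ⟨j, ρ, h1, h2, h3, fun v hv _ => h4 v hv⟩
    have i₂ : Fact (Nat.Prime 2) := ⟨Nat.prime_two⟩
    have i₃ : Fact (Nat.Prime 3) := ⟨Nat.prime_three⟩
    obtain ⟨j₁, h₁⟩ := key 2
    obtain ⟨j₂, h₂⟩ := key 3
    exact ⟨2, 3, i₂, i₃, j₁, j₂, by norm_num, h₁, h₂⟩

end Pool.Agent.Results.MP_666dc0_nt.DeligneSerreLGroups
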