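import Pool.Agent.U849.PJ.Main

/-!
# Satake parameters of finite order modulo scalars: from a proportion of the places to all places

Let `Π` be an automorphic representation of a reductive group `G` over a number field `F`, let `r` be a representation
of dimension `n` of the L-group, and let `P v` be the characteristic polynomial of `r(s_v)`, `s_v` the Satake parameter.
Let `ρ` be **one** continuous semisimple `ℓ`-adic representation attached to `(Π, r)` outside a set `E` of places (for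
instance `r ∘ r_Π` for one prime `ℓ`, with `r_Π` as in the conjecture of Buzzard and Gee). The set `E` may be infinite,
even of positive density, and `ρ` may be ramified at infinitely many places.

**Theorem.** If the places `v ∉ E` at which all quotients of the roots of `P v` are roots of unity have upper density
`> 1 - 1 / n`, then there is **one** exponent `m > 0` such that `α ^ m = β ^ m` for all roots `α`, `β` of `P v`, at
**all** places `v ∉ E`. So all quotients of eigenvalues of the `r(s_v)`, `v ∉ E`, are in one cyclotomic field (the first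
part of the conjecture for the adjoint Satake parameters), the roots of each `P v` have the same absolute value (so
that `r(s_v)` is tempered if the central character is unitary), and the adjoint representation of `ρ`, transported to
`ℂ` by `ι`, has finite image; composed with the embeddings of the field of its coefficients it gives the adjoint
representation for all primes `ℓ'` (the second part of the conjecture for the adjoint Satake parameters).
-/

set_option autoImplicit false

namespace Pool.Agent.Results.MP_666dc0_nt.FiniteOrderEverywhere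

open NumberField IsDedekindDomain Filter Topology Pool.Agent.U849.DG Polynomial

variable {F : Type} [Field F] [NumberField F] {n : ℕ}

/-- All quotients of roots of `p` are roots of unity. -/
def FiniteQuotients (p : ℂ[X]) : Prop := ∃ m : ℕ, 0 < m ∧ ∀ α β : ℂ, p.IsRoot α → p.IsRoot β → α ^ m = β ^ m

/-- The places `v ∉ E` at which all quotients of roots of `P v` are roots of unity have upper density `> 1 - 1 / n`. -/
def Often (n : ℕ) (E : Set (HeightOneSpectrum (𝓞 F))) (P : HeightOneSpectrum (𝓞 F) → ℂ[X]) : Prop :=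
  ∃ θ : ℝ, θ * n < 1 ∧ ∃ᶠ x : ℕ in atTop, ({v : HeightOneSpectrum (𝓞 F) | Ideal.absNorm v.asIdeal ≤ x ∧
    ¬ (v ∉ E ∧ FiniteQuotients (P v))}.ncard : ℝ) ≤ θ * Nat.primeCounting x

/-- `P v` is the characteristic polynomial of `ρ` at the geometric Frobenius elements at the places above `v ∉ E`. -/
def HasPolys {k : Type} [Field k] (ι : k →+* ℂ) (ρ : Gam F →* GL (Fin n) k) (E : Set (HeightOneSpectrum (𝓞 F)))
    (P : HeightOneSpectrum (𝓞 F) → ℂ[X]) : Prop :=
  ∀ v, v ∉ E → ∀ Q : Ideal (ZBar F), Above v Q → ∀ σ : Gam F, IsGeomFrob v Q σ →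
    (ρ σ : Matrix (Fin n) (Fin n) k).charpoly.map ι = P v

theorem nil_of {k : Type} [Field k] [IsAlgClosed k] (A : Matrix (Fin n) (Fin n) k) {m : ℕ} {c : k}
    (h : ∀ a ∈ A.charpoly.roots, a ^ m = c) : IsNilpotent (A ^ m - c • (1 : Matrix (Fin n) (Fin n) k)) := by
  have hsp : A.charpoly = (A.charpoly.roots.map fun a => X - C a).prod :=
    (IsAlgClosed.splits A.charpoly).eq_prod_roots_of_monic (Matrix.charpoly_monic A)
  have h1 : (A.charpoly.roots.map fun a => X - C a).prod ∣
      (A.charpoly.roots.map fun _ => (X ^ m - C c)).prod := by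
    apply Multiset.prod_dvd_prod_of_dvd
    intro a ha
    rw [← h a ha, C_pow]
    exact sub_dvd_pow_sub_pow _ _ m
  rw [← hsp, Multiset.map_const', Multiset.prod_replicate] at h1
  obtain ⟨q, hq⟩ := h1
  refine ⟨A.charpoly.roots.card, ?_⟩
  have h2 := congrArg (aeval A) hq
  rw [map_mul, Matrix.aeval_self_charpoly, zero_mul, map_pow, map_sub, map_pow, aeval_X, aeval_C,
    Algebra.algebraMap_eq_smul_one] at h2
  exact h2

theorem ratios_inv {k : Type} [Field k] (hn : 0 < n) {A : GL (Fin n) k} {m : ℕ} {c : k}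
    (h : IsNilpotent (((A⁻¹ : GL (Fin n) k) : Matrix (Fin n) (Fin n) k) ^ m - c • (1 : Matrix (Fin n) (Fin n) k))) :
    IsNilpotent ((A : Matrix (Fin n) (Fin n) k) ^ m - c⁻¹ • (1 : Matrix (Fin n) (Fin n) k)) := by
  have hne : Nonempty (Fin n) := ⟨⟨0, hn⟩⟩
  set B : Matrix (Fin n) (Fin n) k := (((A ^ m)⁻¹ : GL (Fin n) k) : Matrix (Fin n) (Fin n) k) with hB
  set C : Matrix (Fin n) (Fin n) k := ((A ^ m : GL (Fin n) k) : Matrix (Fin n) (Fin n) k) with hC
  have hCB : C * B = 1 := Units.mul_inv _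
  have hBC : B * C = 1 := Units.inv_mul _
  have h1 : ((A⁻¹ : GL (Fin n) k) : Matrix (Fin n) (Fin n) k) ^ m = B := by
    rw [hB, ← inv_pow, Units.val_pow_eq_pow_val]
  have h2 : (A : Matrix (Fin n) (Fin n) k) ^ m = C := by rw [hC, Units.val_pow_eq_pow_val]
  rw [h1] at h
  rw [h2]
  have hc : c ≠ 0 := by
    rintro rfl
    rw [zero_smul, sub_zero] at h
    obtain ⟨N, hN⟩ := h
    have hu : IsUnit (B ^ N) := (IsUnit.of_mul_eq_one C hBC).pow N
    rw [hN] at hu
    exact not_isUnit_zero hu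
  have h3 : C - c⁻¹ • (1 : Matrix (Fin n) (Fin n) k) = (-c⁻¹) • (C * (B - c • (1 : Matrix (Fin n) (Fin n) k))) := by
    rw [mul_sub, hCB, mul_smul_comm, mul_one, smul_sub, smul_smul, neg_mul, inv_mul_cancel₀ hc, neg_smul, neg_smul,
      one_smul]
    abel
  have hcomm : Commute C (B - c • (1 : Matrix (Fin n) (Fin n) k)) := by
    change C * (B - c • (1 : Matrix (Fin n) (Fin n) k)) = (B - c • (1 : Matrix (Fin n) (Fin n) k)) * C
    rw [mul_sub, sub_mul, hCB, hBC, mul_smul_comm, smul_mul_assoc, mul_one, one_mul]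
  rw [h3]
  exact (hcomm.isNilpotent_mul_left h).smul _

/-- **From a proportion of the places to all places.** -/
theorem result (hn : 0 < n) (ℓ : ℕ) [Fact ℓ.Prime] (ι : PadicAlgCl ℓ →+* ℂ)
    (ρ : Gam F →* GL (Fin n) (PadicAlgCl ℓ)) (hρ : Continuous ρ) (hss : Semisimple ρ)
    (E : Set (HeightOneSpectrum (𝓞 F))) (P : HeightOneSpectrum (𝓞 F) → ℂ[X]) (hP : HasPolys ι ρ E P)
    (hfin : Often n E P) :
    (∃ m : ℕ, 0 < m ∧ ∀ v, v ∉ E → ∀ α β : ℂ, (P v).IsRoot α → (P v).IsRoot β → α ^ m = β ^ m ∧ ‖α‖ = ‖β‖) ∧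
    ∃ A : Gam F →* GL (Fin (n * n)) ℂ, IsOpen (A.ker : Set (Gam F)) ∧ ∀ g : Gam F,
      (A g : Matrix (Fin (n * n)) (Fin (n * n)) ℂ).trace =
        ι ((ρ g : Matrix (Fin n) (Fin n) (PadicAlgCl ℓ)).trace *
          (ρ g⁻¹ : Matrix (Fin n) (Fin n) (PadicAlgCl ℓ)).trace) := by
  classical
  have hnz : NeZero n := ⟨hn.ne'⟩
  obtain ⟨θ, hθ, hfr⟩ := hfin
  have hθ0 : 0 ≤ θ := by
    obtain ⟨x, hx, hx0⟩ := (hfr.and_eventually (Nat.tendsto_primeCounting.eventually_gt_atTop 0)).exists
    have h1 : (0 : ℝ) < Nat.primeCounting x := by exact_mod_cast hx0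
    by_contra hneg
    have h2 : θ * Nat.primeCounting x < 0 := mul_neg_of_neg_of_pos (not_le.1 hneg) h1
    have h3 := (Nat.cast_nonneg _ : (0 : ℝ) ≤ ({v : HeightOneSpectrum (𝓞 F) | Ideal.absNorm v.asIdeal ≤ x ∧
      ¬ (v ∉ E ∧ FiniteQuotients (P v))}.ncard : ℝ))
    linarith
  have hdens : ∃ᶠ x : ℕ in atTop, Pool.Agent.W401.Cheb.dens (fun v : HeightOneSpectrum (𝓞 F) =>
      ∃ g, Pool.Agent.W401.Cheb.IsFrob v g ∧ ∀ k : ℕ, 0 < k → ∀ c : PadicAlgCl ℓ,
        ¬ IsNilpotent (((ρ g : GL (Fin n) (PadicAlgCl ℓ)) : Matrix (Fin n) (Fin n) (PadicAlgCl ℓ)) ^ k -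
          c • (1 : Matrix (Fin n) (Fin n) (PadicAlgCl ℓ)))) x ≤ θ := by
    refine (hfr.and_eventually (Nat.tendsto_primeCounting.eventually_gt_atTop 0)).mono ?_
    rintro N ⟨h1, h3⟩
    have h4 : (0 : ℝ) < (Nat.primeCounting N : ℝ) := by exact_mod_cast h3
    have h5 : Pool.Agent.W401.Cheb.dens (fun v : HeightOneSpectrum (𝓞 F) =>
        ¬ (v ∉ E ∧ FiniteQuotients (P v))) N ≤ θ := by
      unfold Pool.Agent.W401.Cheb.dens
      rw [div_le_iff₀ h4]
      exact h1
    refine le_trans (Pool.Agent.R401.Eng.dens_le ?_ N) h5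
    rintro v ⟨g, ⟨Q, hQ, hQv, hg⟩, hk⟩ ⟨hvE, m, hm, hfo⟩
    have hch := hP v hvE Q ⟨hQ, hQv⟩ g⁻¹ (geom_of_arith hg)
    set B : Matrix (Fin n) (Fin n) (PadicAlgCl ℓ) := (ρ g⁻¹ : GL (Fin n) (PadicAlgCl ℓ)).val with hB
    have hroot : ∀ a ∈ B.charpoly.roots, (P v).IsRoot (ι a) := by
      intro a ha
      rw [← hch]
      exact (isRoot_of_mem_roots ha).map
    have hex : ∃ a, a ∈ B.charpoly.roots := by
      apply Multiset.exists_mem_of_ne_zero
      intro h0
      have h6 := (IsAlgClosed.splits B.charpoly).natDegree_eq_card_roots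
      rw [h0, Multiset.card_zero, Matrix.charpoly_natDegree_eq_dim, Fintype.card_fin] at h6
      omega
    obtain ⟨a₀, ha₀⟩ := hex
    have hnil := nil_of B (m := m) (c := a₀ ^ m) (fun a ha => by
      apply ι.injective
      rw [map_pow, map_pow]
      exact hfo _ _ (hroot a ha) (hroot a₀ ha₀))
    have h7 : IsNilpotent (((((ρ g)⁻¹ : GL (Fin n) (PadicAlgCl ℓ)) : Matrix (Fin n) (Fin n) (PadicAlgCl ℓ))) ^ m -
        a₀ ^ m • (1 : Matrix (Fin n) (Fin n) (PadicAlgCl ℓ))) := by
      rw [← map_inv]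
      exact hnil
    exact hk m hm _ (ratios_inv hn h7)
  obtain ⟨U, hUn, hUo, hU⟩ := Pool.Agent.U849.PJ.scalar_main ρ hρ hss θ hθ0 hθ hdens
  have hfinQ : Finite (Gam F ⧸ U) := Subgroup.quotient_finite_of_isOpen _ hUo
  have hfi : U.FiniteIndex := Subgroup.finiteIndex_of_finite_quotient
  refine ⟨⟨U.index, Nat.pos_of_ne_zero hfi.index_ne_zero, fun v hv α β hα hβ => ?_⟩, ?_⟩
  · obtain ⟨σ₀, Q, hQ, hQv, hσ₀⟩ := Pool.Agent.W401.Frob.exists_frob v
    have hch := hP v hv Q ⟨hQ, hQv⟩ σ₀⁻¹ (geom_of_arith hσ₀)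
    set σ : Gam F := σ₀⁻¹ with hσ
    obtain ⟨c, hc⟩ := hU _ (Subgroup.pow_index_mem U σ)
    set M : Matrix (Fin n) (Fin n) ℂ := ι.mapMatrix (ρ σ : GL (Fin n) (PadicAlgCl ℓ)).val with hM
    have hMp : M ^ U.index = ι c • (1 : Matrix (Fin n) (Fin n) ℂ) := by
      rw [hM, ← map_pow, ← Units.val_pow_eq_pow_val, ← map_pow, hc, RingHom.mapMatrix_apply]
      ext i j
      simp [Matrix.smul_apply, Matrix.one_apply, apply_ite ι]
    have hMc : M.charpoly = P v := by
      rw [← hch, hM, RingHom.mapMatrix_apply, Matrix.charpoly_map]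
    have key : ∀ z : ℂ, (P v).IsRoot z → z ^ U.index = ι c := by
      intro z hz
      rw [← hMc] at hz
      have h2 : Module.End.HasEigenvalue (Matrix.toLin' M) z := by
        rw [Module.End.hasEigenvalue_iff_isRoot_charpoly, Matrix.charpoly_toLin']
        exact hz
      obtain ⟨w, hw⟩ := h2.exists_hasEigenvector
      have hw1 : M.mulVec w = z • w := by
        have := hw.apply_eq_smul
        rwa [Matrix.toLin'_apply] at this
      have h3 : ∀ m : ℕ, (M ^ m).mulVec w = z ^ m • w := by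
        intro m
        induction m with
        | zero => rw [pow_zero, pow_zero, Matrix.one_mulVec, one_smul]
        | succ m ih => rw [pow_succ, ← Matrix.mulVec_mulVec, hw1, Matrix.mulVec_smul, ih, smul_smul, pow_succ, mul_comm]
      have h4 := h3 U.index
      rw [hMp, Matrix.smul_mulVec, Matrix.one_mulVec, ← sub_eq_zero, ← sub_smul] at h4
      exact (sub_eq_zero.1 ((smul_eq_zero.1 h4).resolve_right hw.2)).symm
    have h1 : α ^ U.index = β ^ U.index := (key α hα).trans (key β hβ).symm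
    refine ⟨h1, ?_⟩
    have h2 := congrArg norm h1
    rw [norm_pow, norm_pow] at h2
    exact (pow_left_inj₀ (norm_nonneg _) (norm_nonneg _) hfi.index_ne_zero).1 h2
  · refine ⟨(Matrix.GeneralLinearGroup.map ι).comp (Pool.Agent.U849.FO.adm (PadicAlgCl ℓ) ρ).toHomUnits, ?_, ?_⟩
    · refine Subgroup.isOpen_mono (H₁ := U) ?_ hUo
      intro u hu
      obtain ⟨c, hc⟩ := hU u hu
      have hk1 : Pool.Agent.U849.FO.kap (PadicAlgCl ℓ) n (ρ u) = 1 := by
        change Matrix.kroneckerMap (· * ·) (ρ u : GL (Fin n) (PadicAlgCl ℓ)).val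
          (((ρ u)⁻¹ : GL (Fin n) (PadicAlgCl ℓ)).val).transpose = 1
        have h2 : c • (((ρ u)⁻¹ : GL (Fin n) (PadicAlgCl ℓ)).val).transpose = 1 := by
          have h3 : (ρ u : GL (Fin n) (PadicAlgCl ℓ)).val * ((ρ u)⁻¹ : GL (Fin n) (PadicAlgCl ℓ)).val = 1 :=
            Units.mul_inv _
          rw [hc, smul_mul_assoc, one_mul] at h3
          rw [← Matrix.transpose_smul, h3, Matrix.transpose_one]
        rw [hc, Matrix.smul_kronecker, ← Matrix.kronecker_smul, h2, Matrix.one_kronecker_one]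
      rw [MonoidHom.mem_ker]
      apply Units.ext
      change (Pool.Agent.U849.FO.adm (PadicAlgCl ℓ) ρ u).map ι = 1
      rw [Pool.Agent.U849.FO.adm_apply, hk1, map_one]
      exact Matrix.map_one _ (map_zero ι) (map_one ι)
    · intro g
      change ((Pool.Agent.U849.FO.adm (PadicAlgCl ℓ) ρ g).map ι).trace = _
      have h2 : (Pool.Agent.U849.FO.adm (PadicAlgCl ℓ) ρ g).trace =
          (Pool.Agent.U849.FO.kap (PadicAlgCl ℓ) n (ρ g)).trace := by
        rw [Pool.Agent.U849.FO.adm_apply]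
        simp only [Matrix.trace, Matrix.diag, Matrix.reindexAlgEquiv_apply, Matrix.reindex_apply,
          Matrix.submatrix_apply]
        exact Equiv.sum_comp (finProdFinEquiv : Fin n × Fin n ≃ Fin (n * n)).symm
          (fun x => Pool.Agent.U849.FO.kap (PadicAlgCl ℓ) n (ρ g) x x)
      have h3 : ((Pool.Agent.U849.FO.adm (PadicAlgCl ℓ) ρ g).map ι).trace =
          ι ((Pool.Agent.U849.FO.adm (PadicAlgCl ℓ) ρ g).trace) := by
        simp [Matrix.trace, _root_.map_sum]
      rw [h3, h2]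
      congr 1
      change (Matrix.kroneckerMap (· * ·) _ _).trace = _
      rw [Matrix.trace_kronecker, Matrix.trace_transpose, ← map_inv]

end Pool.Agent.Results.MP_666dc0_nt.FiniteOrderEverywhere
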