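import Pool.Agent.U253.SPL.LAlg

/-!
# Split groups over `ℚ`: one small relation between the Satake parameters forces L-algebraicity and one cyclotomic field

Let `G` be a split connected reductive group over `ℚ`, `T^` the maximal torus of the dual group, of rank `r`,
`X^*(T^) = ℤ^r`. Let `Π` be a unitary automorphic representation of `G(𝔸)`, unramified outside a finite set `S` of primes,
with Satake parameters `s_p = x p ∈ T^(ℂ) = (ℂˣ)^r`, `p ∉ S`, and with an ARBITRARY component `Π_∞`; let `λ ∈ X_•(T^) ⊗ ℂ` be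
its Harish-Chandra parameter. The Langlands parameter of `Π_∞` restricts to `z ↦ z^λ z̄^{θλ}` on `ℂˣ`, where the
involution `θ` (given by an element of the Weyl group) describes the action of complex conjugation on the weights.
Let `ρ_j`, `j ∈ J`, be finitely many representations of the dual group, `W j` the weights of `ρ_j`, whose differences
generate a subgroup of finite index in `ℤ^r`.

**Theorem.** Let `P = ∑_j c_j tr ρ_j`, `c_j` real, `c_j > 0` whenever a weight of `ρ_j` lies on the boundary of the convex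
hull of all weights (`P = tr ρ_0 - c`, or any `P = tr ρ_0 + ∑ c_j tr ρ_j` with smaller `ρ_j`). There are a NUMBER FIELD `E ⊂ ℂ` and
`m ≥ 1`, which depend only on `P` and not on `Π`, such that the following holds for all `Π` for which the `L_S(s, Π, ρ_j)` have
meromorphic continuation and functional equation: if

  `P(s_p)` is small on average: `|P(s_p)| ≤ g(p)`, `∑_{p < X} g(p) log p = o(√X)`, the eigenvalues of the `ρ_j(s_p)` being
  bounded, or only bounded by `g(p)` at exceptional primes,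

then `s_p^m = 1` and `s_p ∈ T^(E)` for EVERY `p ∉ S`, and `λ = 0`: the representation `Π` is L-algebraic and its Satake parameters
are all defined over `E` (part 1 of the Buzzard-Gee conjecture, with a field which works for all such `Π`
simultaneously). `E` is generated by the `m`-th roots of unity, as the conjecture predicts for Galois representations with
finite image.

So a `Π` which is not L-algebraic, or whose Satake parameters at some unramified `p` are not roots of unity, stays away from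
EVERY such hypersurface `P = 0`. `MP_08cfa9_nt.SplitGroups` contains the temperedness; new here: the exponent `m` and the
field `E` are independent of `Π`, `p` (only finitely many coincidence patterns `{(μ, μ') : s^μ = s^μ'}` occur, and each one
which is compatible with `P = 0` spans a subgroup of finite index), and `Π_∞` is arbitrary (the gamma factors
of complex type `Γ_ℂ(s + a) = Γ_ℝ(s + a) Γ_ℝ(s + a + 1)` for pairs `μ ≠ θμ` of weights).
-/

set_option autoImplicit false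

open Filter Topology Asymptotics

namespace Pool.Agent.Results.MP_666dc0_nt.OneRelationLAlgebraic

/-- `∏_{m ∈ κ} Γ_ℝ(s + m)⁻¹`, `Γ_ℝ(s) = π^{-s/2} Γ(s/2)` -/
noncomputable def invGamma (κ : Multiset ℂ) (s : ℂ) : ℂ :=
  (κ.map fun m => (Complex.Gammaℝ (s + m))⁻¹).prod

/-- `∏_{(p, b) ∈ l} (1 - b p^{-s})` -/
noncomputable def finEuler (l : List (ℕ × ℂ)) (s : ℂ) : ℂ :=
  (l.map fun x => 1 - x.2 * (x.1 : ℂ) ^ (-s)).prod

/-- the value `x^μ = ∏_k x_k^{μ_k}` of the weight `μ` at the element `x` of the torus -/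
noncomputable def eigenvalue {r : ℕ} (x : Fin r → ℂ) (μ : Fin r → ℤ) : ℂ := ∏ k, x k ^ μ k

/-- the weights of the dual representation -/
def dual {r : ℕ} (W : Multiset (Fin r → ℤ)) : Multiset (Fin r → ℤ) := W.map fun μ => -μ

/-- the Euler factor `det(1 - ρ(s_p) p^{-s})⁻¹`, `W` the weights of `ρ`, `x p` the Satake parameter -/
noncomputable def eulerFactor {r : ℕ} (W : Multiset (Fin r → ℤ)) (x : ℕ → Fin r → ℂ) (p : ℕ) (s : ℂ) : ℂ :=
  (W.map fun μ => (1 - eigenvalue (x p) μ * (p : ℂ) ^ (-s))⁻¹).prod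

/-- the value `P(s_p) = ∑_j c_j tr ρ_j(s_p)` -/
noncomputable def trace {J : Type} [Fintype J] {r : ℕ} (W : J → Multiset (Fin r → ℤ)) (c : J → ℝ)
    (x : ℕ → Fin r → ℂ) (p : ℕ) : ℂ :=
  ∑ j, (c j : ℂ) * ((W j).map (eigenvalue (x p))).sum

/-- the Euler product `∏_{p ∉ S} F p s` extends to the meromorphic function `N/D` on `ℂ` -/
structure Continuation (S : Finset ℕ) (F : ℕ → ℂ → ℂ) (N D : ℂ → ℂ) : Prop where
  /-- `N` is entire -/
  entire_N : Differentiable ℂ N
  /-- `D` is entire -/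
  entire_D : Differentiable ℂ D
  /-- `N` and `D` are of order at most `3/2` -/
  order : ∃ C : ℝ, ∀ s, ‖N s‖ ≤ Real.exp (C * (1 + ‖s‖) ^ (3 / 2 : ℝ)) ∧
    ‖D s‖ ≤ Real.exp (C * (1 + ‖s‖) ^ (3 / 2 : ℝ))
  /-- `D` has no zeros in `Re s > 1` -/
  ne_zero : ∀ s : ℂ, 1 < s.re → D s ≠ 0
  /-- the partial Euler products converge to `N/D` in `Re s > 1` -/
  euler : ∀ s : ℂ, 1 < s.re → Tendsto (fun X : ℕ =>
    ∏ p ∈ (Finset.range X).filter (fun p => p.Prime ∧ p ∉ S), F p s) atTop (𝓝 (N s / D s))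

/-- the functional equation between `N/D`, with the archimedean parameters `κ`, and the L-function `N'/D'` of the
dual representation, with the archimedean parameters `κ'`: with
`Λ(s) = q^s · (invGamma κ s · finEuler m s)⁻¹ · finEuler l' s · N s / D s` and
`Λ'(s) = q^s · (invGamma κ' s · finEuler l s)⁻¹ · finEuler m' s · N' s / D' s` it says `Λ(s) = ε Λ'(1 - s)` -/
def FunctionalEquation (S : Finset ℕ) (κ κ' : Multiset ℂ) (N D N' D' : ℂ → ℂ) : Prop :=
  ∃ (l l' m m' : List (ℕ × ℂ)) (q : ℝ) (ε : ℂ), 0 < q ∧ ε ≠ 0 ∧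
    (∀ x ∈ l, x.1.Prime ∧ x.1 ∈ S) ∧ (∀ x ∈ l', x.1.Prime ∧ x.1 ∈ S) ∧
    (∀ x ∈ m, x.1.Prime ∧ x.1 ∈ S) ∧ (∀ x ∈ m', x.1.Prime ∧ x.1 ∈ S) ∧
    ∀ s, (q : ℂ) ^ s * invGamma κ' (1 - s) * finEuler l (1 - s) * finEuler l' s * (N s * D' (1 - s)) =
      ε * (q : ℂ) ^ (1 - s) * invGamma κ s * finEuler m s * finEuler m' (1 - s) * (N' (1 - s) * D s)

/-- the pairing of a weight with the Harish-Chandra parameter -/
noncomputable def pairing {r : ℕ} (lam : Fin r → ℂ) (μ : Fin r → ℤ) : ℂ := ∑ k, (μ k : ℂ) * lam k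

/-- the gamma factors of the `ρ_j` are those of a Langlands parameter with Harish-Chandra parameter `lam` and complex
conjugation `θ`: the weights of `ρ_j` are the weights of a multiset `F` (on whose weight vectors the parameter acts by
`μ·λ` and a sign) and the pairs `μ, θ μ`, `μ ∈ Q`; a weight of `F` has the factor `Γ_ℝ(s + μ·λ + δ)`, `δ ∈ {0, 1}`, and a pair
with `μ·λ - θμ·λ = k ≥ 0` has the factor `Γ_ℂ(s + μ·λ)`, i.e. the shifts `μ·λ` and `μ·λ + 1`; in the dual representation these are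
`Γ_ℝ(s - μ·λ + δ)` and `Γ_ℂ(s - θμ·λ)` -/
def HarishChandra {J : Type} {r : ℕ} (W : J → Multiset (Fin r → ℤ)) (κ κ' : J → Multiset ℂ)
    (lam : Fin r → ℂ) : Prop :=
  ∃ θ : (Fin r → ℤ) → (Fin r → ℤ), ∀ j, ∃ (F : Multiset ((Fin r → ℤ) × Bool)) (Q : Multiset (Fin r → ℤ)),
    W j = F.map Prod.fst + Q + Q.map θ ∧
    (∀ μ ∈ Q, ∃ k : ℕ, pairing lam μ = pairing lam (θ μ) + k) ∧
    κ j = F.map (fun q => pairing lam q.1 + if q.2 then 1 else 0) + Q.map (pairing lam) +
      Q.map (fun μ => pairing lam μ + 1) ∧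
    κ' j = F.map (fun q => -pairing lam q.1 + if q.2 then 1 else 0) +
      Q.map (fun μ => -pairing lam (θ μ)) + Q.map (fun μ => -pairing lam (θ μ) + 1)

/-- the properties of `Π` which are used -/
structure Automorphic {J : Type} {r : ℕ} (W : J → Multiset (Fin r → ℤ)) (S : Finset ℕ)
    (x : ℕ → Fin r → ℂ) (lam : Fin r → ℂ) : Prop where
  /-- `x p` lies in the torus -/
  torus : ∀ p : ℕ, p.Prime → p ∉ S → ∀ k, x p k ≠ 0
  /-- `Π_p` is unitary: `ρ_j(s_p)` and its conjugate inverse have the same eigenvalues -/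
  unitary : ∀ p : ℕ, p.Prime → p ∉ S → ∀ j,
    ((W j).map fun μ => ((starRingEnd ℂ) (eigenvalue (x p) μ))⁻¹) = (W j).map (eigenvalue (x p))
  /-- the L-functions of the `ρ_j` and their duals continue and have the functional equation, with the gamma factors
  given by a parameter with Harish-Chandra parameter `lam` -/
  nice : ∃ (κ κ' : J → Multiset ℂ) (N D N' D' : J → ℂ → ℂ), HarishChandra W κ κ' lam ∧
    ∀ j, Continuation S (eulerFactor (W j) x) (N j) (D j) ∧
      Continuation S (eulerFactor (dual (W j)) x) (N' j) (D' j) ∧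
      FunctionalEquation S (κ j) (κ' j) (N j) (D j) (N' j) (D' j)

/-- the coefficient `c j` is positive whenever some weight of `ρ_j` is extreme in some direction `a` (in which not all
weights agree) -/
def PositiveOnFaces {J : Type} {r : ℕ} (W : J → Multiset (Fin r → ℤ)) (c : J → ℝ) : Prop :=
  ∀ a : Fin r → ℤ, (∃ i, ∃ j, ∃ μ ∈ W i, ∃ μ' ∈ W j, ∑ k, a k * μ k ≠ ∑ k, a k * μ' k) →
    ∀ j, ∀ μ ∈ W j, (∀ i, ∀ μ' ∈ W i, ∑ k, a k * μ' k ≤ ∑ k, a k * μ k) → 0 < c j

/-- the differences of the weights generate a subgroup of finite index -/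
def FiniteIndex {J : Type} {r : ℕ} (W : J → Multiset (Fin r → ℤ)) : Prop :=
  ∀ k : Fin r, ∃ N : ℕ, 0 < N ∧ N • (Pi.single k 1 : Fin r → ℤ) ∈
    AddSubgroup.closure {d : Fin r → ℤ | ∃ i j, ∃ μ ∈ W i, ∃ μ' ∈ W j, d = μ - μ'}

theorem eig_neg {r : ℕ} (x : Fin r → ℂ) (μ : Fin r → ℤ) : eigenvalue x (-μ) = (eigenvalue x μ)⁻¹ := by
  unfold eigenvalue
  rw [← Finset.prod_inv_distrib]
  exact Finset.prod_congr rfl fun k _ => by rw [Pi.neg_apply, zpow_neg]

theorem coe_map {α β : Type*} (W : Multiset α) (f : α → β) :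
    W.map f = ((W.toList.map f : List β) : Multiset β) := by
  rw [← Multiset.map_coe, Multiset.coe_toList]

/-- the symmetric form of the gamma factors -/
theorem gamma_sym {J : Type} {r : ℕ} {W : J → Multiset (Fin r → ℤ)} {κ κ' : J → Multiset ℂ}
    {lam : Fin r → ℂ} (h : HarishChandra W κ κ' lam) (j : J) (z : ℂ) :
    ((κ j).map (Pool.Agent.U253.SPL.con z)).sum + ((κ' j).map (Pool.Agent.U253.SPL.con z)).sum =
      ((W j).map fun μ => Pool.Agent.U253.SPL.Tc z (Pool.Agent.U253.SPL.dc lam μ)).sum := by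
  obtain ⟨θ, hθ⟩ := h
  obtain ⟨F, Q, hW, -, h1, h2⟩ := hθ j
  rw [hW, h1, h2]
  simp only [Multiset.map_add, Multiset.sum_add, Multiset.map_map, Function.comp_def]
  have e1 : (F.map fun q => Pool.Agent.U253.SPL.con z (pairing lam q.1 + if q.2 then 1 else 0)).sum +
      (F.map fun q => Pool.Agent.U253.SPL.con z (-pairing lam q.1 + if q.2 then 1 else 0)).sum =
      (F.map fun q => Pool.Agent.U253.SPL.Tc z (Pool.Agent.U253.SPL.dc lam q.1)).sum := by
    rw [← Multiset.sum_map_add]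
    congr 1
    refine Multiset.map_congr rfl fun q _ => ?_
    have h3 := Pool.Agent.U253.SPL.con_real z (pairing lam q.1) (if q.2 then 1 else 0)
    have e : ((((if q.2 = true then (1 : ℤ) else 0) % 2 : ℤ)) : ℂ) = if q.2 = true then 1 else 0 := by
      split_ifs <;> norm_num
    rw [e] at h3
    exact h3
  have e2 : (Q.map fun μ => Pool.Agent.U253.SPL.con z (pairing lam μ)).sum +
      (Q.map fun μ => Pool.Agent.U253.SPL.con z (pairing lam μ + 1)).sum =
      (Q.map fun μ => Pool.Agent.U253.SPL.Tc z (Pool.Agent.U253.SPL.dc lam μ)).sum := by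
    rw [← Multiset.sum_map_add]
    congr 1
    exact Multiset.map_congr rfl fun μ _ => Pool.Agent.U253.SPL.con_pair z (pairing lam μ)
  have e3 : (Q.map fun μ => Pool.Agent.U253.SPL.con z (-pairing lam (θ μ))).sum +
      (Q.map fun μ => Pool.Agent.U253.SPL.con z (-pairing lam (θ μ) + 1)).sum =
      (Q.map fun μ => Pool.Agent.U253.SPL.Tc z (Pool.Agent.U253.SPL.dc lam (θ μ))).sum := by
    rw [← Multiset.sum_map_add]
    congr 1
    refine Multiset.map_congr rfl fun μ _ => ?_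
    rw [Pool.Agent.U253.SPL.con_pair z (-pairing lam (θ μ)), Pool.Agent.U253.SPL.Tc_neg]
    rfl
  rw [← e1, ← e2, ← e3]
  ring

/-- **One small relation: `Π` is L-algebraic and the Satake parameters are defined over one number field.** -/
theorem result {J : Type} [Fintype J] {r : ℕ} (W : J → Multiset (Fin r → ℤ)) (c : J → ℝ)
    (hc : PositiveOnFaces W c) (hW : FiniteIndex W) :
    ∃ (m : ℕ) (E : IntermediateField ℚ ℂ), 0 < m ∧ FiniteDimensional ℚ E ∧
      E = IntermediateField.adjoin ℚ {z : ℂ | z ^ m = 1} ∧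
      ∀ (S : Finset ℕ) (x : ℕ → Fin r → ℂ) (lam : Fin r → ℂ), Automorphic W S x lam →
      ∀ (g : ℕ → ℝ) (B : ℝ), (∀ p, 0 ≤ g p) →
        (fun X : ℕ => ∑ p ∈ (Finset.range X).filter (fun p => p.Prime ∧ p ∉ S),
          g p * Real.log p) =o[atTop] (fun X : ℕ => √(X : ℝ)) →
        (∀ p : ℕ, p.Prime → p ∉ S →
          ((∀ j, ∀ μ ∈ W j, ‖eigenvalue (x p) μ‖ ≤ B) ∧ ‖trace W c x p‖ ≤ g p) ∨
          ∀ j, ∀ μ ∈ W j, ‖eigenvalue (x p) μ‖ ≤ g p) →
        lam = 0 ∧ ∀ p : ℕ, p.Prime → p ∉ S → ∀ k, x p k ^ m = 1 ∧ x p k ∈ E := by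
  set L : J → List (Fin r → ℤ) := fun j => (W j).toList with hLdef
  have hmem : ∀ j μ, μ ∈ L j ↔ μ ∈ W j := fun j μ => Multiset.mem_toList
  have hdom : Pool.Agent.U253.SPL.DomK ∅ L c := by
    intro a _ ⟨i, j, μ, hμ, μ', hμ', hne⟩ i' μ₁ hμ₁ hmax
    exact hc a ⟨i, j, μ, (hmem i μ).1 hμ, μ', (hmem j μ').1 hμ', hne⟩ i' μ₁ ((hmem i' μ₁).1 hμ₁)
      fun i₂ μ₂ hμ₂ => hmax i₂ μ₂ ((hmem i₂ μ₂).2 hμ₂)
  have hdom' : Pool.Agent.U253.SPL.Dom L c := fun a h => hdom a (by simp) h
  obtain ⟨m₁, hm₁, huni⟩ := Pool.Agent.U253.SPL.uniform hdom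
  choose M hM0 hM using hW
  have hclo : {d : Fin r → ℤ | ∃ i j, ∃ μ ∈ L i, ∃ μ' ∈ L j, d = μ - μ'} =
      {d : Fin r → ℤ | ∃ i j, ∃ μ ∈ W i, ∃ μ' ∈ W j, d = μ - μ'} := by
    simp only [hmem]
  set m : ℕ := (∏ k, M k) * m₁ with hm
  have hm0 : 0 < m := Nat.mul_pos (Finset.prod_pos fun k _ => hM0 k) hm₁
  have hfin : Finite {z : ℂ | z ^ m = 1} := by
    have h1 : {z : ℂ | z ^ m = 1} = ((Polynomial.nthRoots m (1 : ℂ)).toFinset : Set ℂ) := by
      ext z
      simp [Polynomial.mem_nthRoots hm0]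
    rw [h1]
    exact Finset.finite_toSet _
  refine ⟨m, IntermediateField.adjoin ℚ {z : ℂ | z ^ m = 1}, hm0,
    IntermediateField.finiteDimensional_adjoin fun x hx => ?_, rfl, ?_⟩
  · refine ⟨Polynomial.X ^ m - 1, Polynomial.monic_X_pow_sub_C 1 hm0.ne', ?_⟩
    have hx' : x ^ m = 1 := hx
    simp [hx']
  intro S x lam hpi g B hg hs h
  obtain ⟨htor, hun, κ, κ', N, D, N', D', hHC, hND⟩ := hpi
  have hfac : ∀ (j : J) (p : ℕ) (s : ℂ), eulerFactor (W j) x p s =
      ∏ i ∈ Finset.range (L j).length, (1 - Pool.Agent.U253.SPL.mono (x p) ((L j).getD i 0) * (p : ℂ) ^ (-s))⁻¹ := by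
    intro j p s
    rw [Pool.Agent.U253.SPL.prod_getD (L j) 0
      (fun μ => (1 - Pool.Agent.U253.SPL.mono (x p) μ * (p : ℂ) ^ (-s))⁻¹)]
    unfold eulerFactor
    rw [coe_map, Multiset.prod_coe]
    rfl
  have hfac' : ∀ (j : J) (p : ℕ) (s : ℂ), eulerFactor (dual (W j)) x p s =
      ∏ i ∈ Finset.range (L j).length,
        (1 - (Pool.Agent.U253.SPL.mono (x p) ((L j).getD i 0))⁻¹ * (p : ℂ) ^ (-s))⁻¹ := by
    intro j p s
    rw [Pool.Agent.U253.SPL.prod_getD (L j) 0
      (fun μ => (1 - (Pool.Agent.U253.SPL.mono (x p) μ)⁻¹ * (p : ℂ) ^ (-s))⁻¹)]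
    unfold eulerFactor dual
    rw [Multiset.map_map, coe_map, Multiset.prod_coe]
    congr 1
    refine List.map_congr_left fun μ _ => ?_
    rw [Function.comp_apply, eig_neg]
    rfl
  have hgi : ∀ (κ : Multiset ℂ) (s : ℂ), invGamma κ s = Pool.Agent.N210.FV.gi κ.toList s := by
    intro κ s
    unfold invGamma
    rw [coe_map, Multiset.prod_coe]
    rfl
  have hherm : ∀ p : ℕ, p.Prime → p ∉ S → ∀ j,
      ((L j).map fun μ => ((starRingEnd ℂ) (Pool.Agent.U253.SPL.mono (x p) μ))⁻¹).Perm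
        ((L j).map (Pool.Agent.U253.SPL.mono (x p))) := by
    intro p hp hpS j
    rw [← Multiset.coe_eq_coe]
    have h1 := hun p hp hpS j
    rw [coe_map, coe_map (W j) (eigenvalue (x p))] at h1
    exact h1
  have hH : ∀ j, Pool.Agent.U253.EEA.Half S (L j).length
      (fun p i => Pool.Agent.U253.SPL.mono (x p) ((L j).getD i 0)) (N j) (D j) := by
    intro j
    obtain ⟨⟨a1, a2, a3, a4, a5⟩, -⟩ := hND j
    refine ⟨a1, a2, a3, a4, fun s hs => ?_⟩
    simpa only [hfac] using a5 s hs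
  have hH' : ∀ j, Pool.Agent.U253.EEA.Half S (L j).length
      (fun p i => (Pool.Agent.U253.SPL.mono (x p) ((L j).getD i 0))⁻¹) (N' j) (D' j) := by
    intro j
    obtain ⟨-, ⟨a1, a2, a3, a4, a5⟩, -⟩ := hND j
    refine ⟨a1, a2, a3, a4, fun s hs => ?_⟩
    simpa only [hfac'] using a5 s hs
  have hFE : ∀ j, Pool.Agent.U253.EEA.FEq S (κ j).toList (κ' j).toList (N j) (D j) (N' j) (D' j) := by
    intro j
    obtain ⟨l, l', n, n', q, ε, hq, hε, b1, b2, b3, b4, hfe⟩ := (hND j).2.2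
    refine ⟨l, l', n, n', q, ε, hq, hε, b1, b2, b3, b4, fun s => ?_⟩
    have h1 := hfe s
    rw [hgi, hgi] at h1
    exact h1
  have hsm : ∀ p : ℕ, p.Prime → p ∉ S →
      ((∀ j, ∀ μ ∈ L j, ‖Pool.Agent.U253.SPL.mono (x p) μ‖ ≤ B) ∧
        ‖∑ j, (c j : ℂ) * ((L j).map (Pool.Agent.U253.SPL.mono (x p))).sum‖ ≤ g p) ∨
      ∀ j, ∀ μ ∈ L j, ‖Pool.Agent.U253.SPL.mono (x p) μ‖ ≤ g p := by
    intro p hp hpS
    rcases h p hp hpS with ⟨h1, h2⟩ | h1
    · left
      refine ⟨fun j μ hμ => h1 j μ ((hmem j μ).1 hμ), ?_⟩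
      unfold trace at h2
      simp only [coe_map, Multiset.sum_coe] at h2
      exact h2
    · right
      exact fun j μ hμ => h1 j μ ((hmem j μ).1 hμ)
  have hz := Pool.Agent.U253.SPL.zero_main (W := L) (c := c) hherm hH hH' hFE hg hs hsm
  have harch := Pool.Agent.U253.SPL.arch_main (W := L) (c := c) hherm hH hH' hFE hg hs hsm
  constructor
  · have h1 := Pool.Agent.U253.SPL.arch_rel2 (W := L) (c := c) (ν := lam)
      (m := fun j => (κ j).toList) (m' := fun j => (κ' j).toList) (fun j z => by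
        have h2 := gamma_sym hHC j z
        rw [coe_map, coe_map (κ' j), coe_map (W j), Multiset.sum_coe, Multiset.sum_coe,
          Multiset.sum_coe] at h2
        exact h2) harch
    have h2 : ∀ i j, ∀ μ ∈ L i, ∀ μ' ∈ L j,
        Pool.Agent.U253.SPL.dc lam μ = Pool.Agent.U253.SPL.dc lam μ' := fun i j μ hμ μ' hμ' =>
      Pool.Agent.U253.SPL.inf_zero hdom' h1 hμ hμ'
    funext k
    have h3 := Pool.Agent.U253.SPL.exp_gen (W := L) (ν := lam) h2 (d := M k • Pi.single k 1) (by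
      rw [hclo]
      exact hM k)
    rw [Pool.Agent.U253.SPL.dc_single] at h3
    have h4 : (M k : ℂ) ≠ 0 := by exact_mod_cast (hM0 k).ne'
    exact (mul_eq_zero.1 h3).resolve_left h4
  · intro p hp hpS k
    have h1 := huni (x p) (htor p hp hpS) (by simp) (hz p hp hpS)
    have h2 := Pool.Agent.U253.SPL.tor_gen (W := L) (htor p hp hpS) h1
      (d := M k • Pi.single k 1) (by
        rw [hclo]
        exact hM k)
    rw [Pool.Agent.U253.SPL.mono_single, ← pow_mul] at h2
    have h3 : x p k ^ m = 1 := by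
      obtain ⟨e, he⟩ := Finset.dvd_prod_of_mem M (Finset.mem_univ k)
      rw [hm, he, show M k * e * m₁ = (M k * m₁) * e by ring, pow_mul, h2, one_pow]
    exact ⟨h3, IntermediateField.subset_adjoin ℚ _ h3⟩

end Pool.Agent.Results.MP_666dc0_nt.OneRelationLAlgebraic
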