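import Pool.Agent.U253.NFD.DepTwo

/-!
# Algebraicity is inherited through one relation between Hecke eigenvalues, with uniform exponents

Let `F` be a number field, `G` and `G'` connected reductive groups over `F`, `Π` and `Π'` automorphic representations of `G(𝔸_F)`
and `G'(𝔸_F)` with unitary local components, unramified above the primes `p` outside a finite set `S`; the archimedean
components are arbitrary. Let `ρ_j` (`j ∈ J`), `ρ'_i` (`i ∈ I`) be finitely many representations of the L-groups of `G` and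
`G'`, `W j`, `U i` the multisets of weights of their restrictions to the maximal tori of the dual groups, `α j v` and `β i v`
the eigenvalues of `ρ_j` and `ρ'_i` at the Satake parameters `s_v`, `s'_v`, and `lam τ`, `lam' τ` the Harish-Chandra parameters
at the embeddings `τ : F → ℂ`.

**Theorem.** Let the `ρ_j` have a finite joint kernel on the torus, and let `∑_j c_j tr ρ_j` be positive on the faces. There is `M ≥ 1`
depending only on the weights, the coefficients and the degree of `F` (and the order `h` of the image of the Galois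
group in the L-groups), such that: if `∑_j c_j tr ρ_j(s_v) = ∑_i d_i tr ρ'_i(s'_v)` holds ON AVERAGE, up to an error `g(p)` with
`∑_{p < X} g(p) log p = o(√X)`, for the places of degree `1`, then

1. for EVERY place `v` of `F` above a prime `p ∉ S` the power `s_v^M` lies in `T̂(Γ_p)`, where `Γ_p ⊂ ℂˣ` is the group generated by the
   eigenvalues of the `ρ'_i(s'_w)`, `w ∣ p`, `d_i > 0`. In particular if these lie in a field `E` for all `p ∉ S`, then all the `s_v^M`
   are defined over `E`: the Satake parameters of `Π` are algebraic if those of `Π'` are, with bounded degrees over `E`.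
2. all the coordinates of `M · lam τ` lie in the group generated by the exponents `ν · lam' τ'`, `ν` a weight of `ρ'_i`, `d_i > 0`. In
   particular if `Π'` is L-algebraic, then `M · lam τ` is integral: `Π` is L-algebraic up to the bounded denominator `M`.

For `I = ∅` all the Satake parameters are torsion and all exponents vanish.
-/

set_option autoImplicit false

open Filter Topology Asymptotics NumberField

namespace Pool.Agent.Results.MP_666dc0_nt.TransferOfAlgebraicity

/-- `∏_{m ∈ κ} Γ_ℝ(s + m)⁻¹`, `Γ_ℝ(s) = π^{-s/2} Γ(s/2)` -/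
noncomputable def invGamma (κ : Multiset ℂ) (s : ℂ) : ℂ :=
  (κ.map fun m => (Complex.Gammaℝ (s + m))⁻¹).prod

/-- `∏_{(p, b) ∈ l} (1 - b p^{-s})` -/
noncomputable def finEuler (l : List (ℕ × ℂ)) (s : ℂ) : ℂ :=
  (l.map fun x => 1 - x.2 * (x.1 : ℂ) ^ (-s)).prod

/-- the places of `K` above the rational prime `p`: the prime ideals `v` of `𝓞 K` which contain `p` -/
noncomputable def places (K : Type) [Field K] [NumberField K] (p : ℕ) : Finset (Ideal (𝓞 K)) :=
  IsDedekindDomain.primesOverFinset (Ideal.span {(p : ℤ)}) (𝓞 K)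

/-- the residue degree of the place `v` above `p`: `N(v) = p^{degree p v}` -/
noncomputable def degree {K : Type} [Field K] [NumberField K] (p : ℕ) (v : Ideal (𝓞 K)) : ℕ :=
  (Ideal.span {(p : ℤ)}).inertiaDeg' v

/-- the value `x^μ = ∏_k x_k^{μ_k}` of the weight `μ` at the point `x` of the torus -/
noncomputable def eigenvalue {r : ℕ} (x : Fin r → ℂ) (μ : Fin r → ℤ) : ℂ := ∏ k, x k ^ μ k

/-- the parameters of the dual representation -/
noncomputable def dual {A : Type} (α : A → Multiset ℂ) : A → Multiset ℂ := fun v => (α v).map fun a => a⁻¹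

/-- the product `∏_{v ∣ p} ∏_{a ∈ α v} (1 - a N(v)^{-s})⁻¹` of the Euler factors above `p` -/
noncomputable def eulerFactor (K : Type) [Field K] [NumberField K] (α : Ideal (𝓞 K) → Multiset ℂ)
    (p : ℕ) (s : ℂ) : ℂ :=
  ∏ v ∈ places K p, ((α v).map fun a => (1 - a * (Ideal.absNorm v : ℂ) ^ (-s))⁻¹).prod

/-- the value `∑_j c_j tr ρ_j(s_v)` -/
noncomputable def trace {J A : Type} [Fintype J] (c : J → ℝ) (α : J → A → Multiset ℂ) (v : A) : ℂ :=
  ∑ j, (c j : ℂ) * (α j v).sum

/-- the Euler product `∏_{p ∉ S} F p s` extends to the meromorphic function `N/D` on `ℂ` -/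
structure Continuation (S : Finset ℕ) (F : ℕ → ℂ → ℂ) (N D : ℂ → ℂ) : Prop where
  /-- `N` is entire -/
  entire_N : Differentiable ℂ N
  /-- `D` is entire -/
  entire_D : Differentiable ℂ D
  /-- `N` and `D` are of order at most `3/2` -/
  order : ∃ C : ℝ, ∀ s, ‖N s‖ ≤ Real.exp (C * (1 + ‖s‖) ^ (3 / 2 : ℝ)) ∧
    ‖D s‖ ≤ Real.exp (C * (1 + ‖s‖) ^ (3 / 2 : ℝ))
  /-- `D` has no zeros in `Re s > 1` -/
  ne_zero : ∀ s : ℂ, 1 < s.re → D s ≠ 0
  /-- the partial Euler products converge to `N/D` in `Re s > 1` -/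
  euler : ∀ s : ℂ, 1 < s.re → Tendsto (fun X : ℕ =>
    ∏ p ∈ (Finset.range X).filter (fun p => p.Prime ∧ p ∉ S), F p s) atTop (𝓝 (N s / D s))

/-- the functional equation between `N/D`, with the archimedean parameters `κ`, and the L-function `N'/D'` of the
dual representation, with the archimedean parameters `κ'`: with
`Λ(s) = q^s · (invGamma κ s · finEuler m s)⁻¹ · finEuler l' s · N s / D s` and
`Λ'(s) = q^s · (invGamma κ' s · finEuler l s)⁻¹ · finEuler m' s · N' s / D' s` it says `Λ(s) = ε Λ'(1 - s)`; the finite products are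
the Euler factors above `S` -/
def FunctionalEquation (S : Finset ℕ) (κ κ' : Multiset ℂ) (N D N' D' : ℂ → ℂ) : Prop :=
  ∃ (l l' m m' : List (ℕ × ℂ)) (q : ℝ) (ε : ℂ), 0 < q ∧ ε ≠ 0 ∧
    (∀ x ∈ l, x.1.Prime ∧ x.1 ∈ S) ∧ (∀ x ∈ l', x.1.Prime ∧ x.1 ∈ S) ∧
    (∀ x ∈ m, x.1.Prime ∧ x.1 ∈ S) ∧ (∀ x ∈ m', x.1.Prime ∧ x.1 ∈ S) ∧
    ∀ s, (q : ℂ) ^ s * invGamma κ' (1 - s) * finEuler l (1 - s) * finEuler l' s * (N s * D' (1 - s)) =
      ε * (q : ℂ) ^ (1 - s) * invGamma κ s * finEuler m s * finEuler m' (1 - s) * (N' (1 - s) * D s)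

/-- the exponent of `z` in the weight `μ` of the Langlands parameter at the embedding `τ`: on `ℂˣ` the parameter
at `τ` is `z ↦ z^{lam τ} z̄^{lam τ̄}` in the dual torus -/
noncomputable def pairing {K : Type} [Field K] {r : ℕ} (lam : (K →+* ℂ) → Fin r → ℂ)
    (q : (K →+* ℂ) × (Fin r → ℤ)) : ℂ :=
  ∑ k, (q.2 k : ℂ) * lam q.1 k

/-- the pairs `(τ, μ)`, `τ` an embedding of `K` in `ℂ`, `μ` a weight of `ρ`, with multiplicity: the weights of the representation
of `ℂˣ` on the restriction of scalars to `ℚ` -/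
noncomputable def pairs (K : Type) [Field K] [NumberField K] {r : ℕ} (W : Multiset (Fin r → ℤ)) :
    Multiset ((K →+* ℂ) × (Fin r → ℤ)) :=
  (Finset.univ : Finset (K →+* ℂ)).val ×ˢ W

/-- the gamma factors of the `ρ_j` are those of Langlands parameters with the exponents `lam τ`, `τ` the embeddings of `K`:
complex conjugation acts on the pairs `(τ, μ)` (on `(τ, μ)`, `τ` complex, by `(τ̄, μ)`; on `(τ, μ)`, `τ` real, by an
involution of the weights). The pairs of `ρ_j` are those of a multiset `F` (weight vectors at real `τ` fixed up to sign) and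
the orbits `q, θ q`, `q ∈ Q`; an element of `F` has the factor `Γ_ℝ(s + pairing + δ)`, `δ ∈ {0, 1}`, and an orbit, with
`pairing q - pairing (θ q) = k ≥ 0`, has the factor `Γ_ℂ(s + pairing q)`, i.e. the shifts `pairing q` and `pairing q + 1`; in the dual
representation these are `Γ_ℝ(s - pairing + δ)` and `Γ_ℂ(s - pairing (θ q))` -/
def HarishChandra (K : Type) [Field K] [NumberField K] {J : Type} {r : ℕ}
    (W : J → Multiset (Fin r → ℤ)) (κ κ' : J → Multiset ℂ) (lam : (K →+* ℂ) → Fin r → ℂ) : Prop :=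
  ∃ θ : (K →+* ℂ) × (Fin r → ℤ) → (K →+* ℂ) × (Fin r → ℤ), ∀ j,
    ∃ (F : Multiset (((K →+* ℂ) × (Fin r → ℤ)) × Bool)) (Q : Multiset ((K →+* ℂ) × (Fin r → ℤ))),
    pairs K (W j) = F.map Prod.fst + Q + Q.map θ ∧
    (∀ q ∈ Q, ∃ k : ℕ, pairing lam q = pairing lam (θ q) + k) ∧
    κ j = F.map (fun q => pairing lam q.1 + if q.2 then 1 else 0) + Q.map (pairing lam) +
      Q.map (fun q => pairing lam q + 1) ∧
    κ' j = F.map (fun q => -pairing lam q.1 + if q.2 then 1 else 0) +
      Q.map (fun q => -pairing lam (θ q)) + Q.map (fun q => -pairing lam (θ q) + 1)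

/-- the properties of `Π` which are used; `W j` are the weights of `ρ_j`, `α j v` the eigenvalues of `ρ_j` at the Satake
parameter `s_v` of `Π_v`, `lam` the Harish-Chandra parameters -/
structure Automorphic (K : Type) [Field K] [NumberField K] {J : Type} {r : ℕ} (h : ℕ)
    (W : J → Multiset (Fin r → ℤ)) (S : Finset ℕ) (α : J → Ideal (𝓞 K) → Multiset ℂ)
    (lam : (K →+* ℂ) → Fin r → ℂ) : Prop where
  /-- `s_v^h` (an element of the dual group) is conjugate to an element `x` of the dual torus -/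
  satake : ∀ p : ℕ, p.Prime → p ∉ S → ∀ v ∈ places K p, ∃ x : Fin r → ℂ, (∀ k, x k ≠ 0) ∧
    ∀ j, (α j v).map (fun a => a ^ h) = (W j).map (eigenvalue x)
  /-- `Π_v` is unitary: the eigenvalues and their conjugate inverses agree as multisets -/
  unitary : ∀ p : ℕ, p.Prime → p ∉ S → ∀ v ∈ places K p, ∀ j,
    (α j v).map (fun a => ((starRingEnd ℂ) a)⁻¹) = α j v
  /-- the L-functions of the `ρ_j` and their duals continue and have the functional equation, with the gamma factors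
  given by Langlands parameters with the exponents `lam` -/
  nice : ∃ (κ κ' : J → Multiset ℂ) (N D N' D' : J → ℂ → ℂ), HarishChandra K W κ κ' lam ∧
    ∀ j, Continuation S (eulerFactor K (α j)) (N j) (D j) ∧
      Continuation S (eulerFactor K (dual (α j))) (N' j) (D' j) ∧
      FunctionalEquation S (κ j) (κ' j) (N j) (D j) (N' j) (D' j)

/-- for every real direction `a`, the extreme weights (those for which `|a · μ|` has the maximal value `M > 0`) have a
positive total coefficient -/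
def PositiveOnFaces {J : Type} [Fintype J] {r : ℕ} (W : J → Multiset (Fin r → ℤ)) (c : J → ℝ) : Prop :=
  ∀ (a : Fin r → ℝ) (M : ℝ), 0 < M → (∀ j, ∀ μ ∈ W j, |∑ k, a k * (μ k : ℝ)| ≤ M) →
    (∃ j, ∃ μ ∈ W j, |∑ k, a k * (μ k : ℝ)| = M) →
    0 < ∑ j, c j * (((W j).map fun μ => |∑ k, a k * (μ k : ℝ)|).count M : ℝ)

/-- the weights of the `ρ_j` generate a subgroup of finite index, i.e. the joint kernel on the torus is finite -/
def FiniteKernel {J : Type} {r : ℕ} (W : J → Multiset (Fin r → ℤ)) : Prop :=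
  ∃ N : ℕ, 0 < N ∧ ∀ μ : Fin r → ℤ, N • μ ∈ AddSubgroup.closure {μ | ∃ j, μ ∈ W j}

/-- the group `Γ_p` generated by the eigenvalues of the `ρ'_i(s'_w)`, `w ∣ p`, `d_i > 0` -/
def parameterGroup (K : Type) [Field K] [NumberField K] {I : Type} (d : I → ℝ)
    (β : I → Ideal (𝓞 K) → Multiset ℂ) (p : ℕ) : Subgroup ℂˣ :=
  Subgroup.closure {y | ∃ i, 0 < d i ∧ ∃ w ∈ places K p, (y : ℂ) ∈ β i w}

/-- the group generated by the exponents `ν · lam' τ`, `ν` a weight of `ρ'_i`, `d_i > 0` -/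
def exponentGroup (K : Type) [Field K] [NumberField K] {I : Type} {r : ℕ} (d : I → ℝ)
    (U : I → Multiset (Fin r → ℤ)) (lam : (K →+* ℂ) → Fin r → ℂ) : AddSubgroup ℂ :=
  AddSubgroup.closure {e | ∃ i, 0 < d i ∧ ∃ τ : K →+* ℂ, ∃ ν ∈ U i, e = pairing lam (τ, ν)}

theorem coe_map {α β : Type*} (W : Multiset α) (f : α → β) :
    W.map f = ((W.toList.map f : List β) : Multiset β) := by
  rw [← Multiset.map_coe, Multiset.coe_toList]

/-- the symmetric form of the gamma factors -/
theorem gamma_sym {K : Type} [Field K] [NumberField K] {J : Type} {r : ℕ}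
    {W : J → Multiset (Fin r → ℤ)} {κ κ' : J → Multiset ℂ} {lam : (K →+* ℂ) → Fin r → ℂ}
    (h : HarishChandra K W κ κ' lam) (j : J) (z : ℂ) :
    ((κ j).map (Pool.Agent.U253.SPL.con z)).sum + ((κ' j).map (Pool.Agent.U253.SPL.con z)).sum =
      ((pairs K (W j)).map fun q => Pool.Agent.U253.SPL.Tc z (pairing lam q)).sum := by
  obtain ⟨θ, hθ⟩ := h
  obtain ⟨F, Q, hW, -, h1, h2⟩ := hθ j
  rw [hW, h1, h2]
  simp only [Multiset.map_add, Multiset.sum_add, Multiset.map_map, Function.comp_def]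
  have e1 : (F.map fun q => Pool.Agent.U253.SPL.con z (pairing lam q.1 + if q.2 then 1 else 0)).sum +
      (F.map fun q => Pool.Agent.U253.SPL.con z (-pairing lam q.1 + if q.2 then 1 else 0)).sum =
      (F.map fun q => Pool.Agent.U253.SPL.Tc z (pairing lam q.1)).sum := by
    rw [← Multiset.sum_map_add]
    congr 1
    refine Multiset.map_congr rfl fun q _ => ?_
    have h3 := Pool.Agent.U253.SPL.con_real z (pairing lam q.1) (if q.2 then 1 else 0)
    have e : ((((if q.2 = true then (1 : ℤ) else 0) % 2 : ℤ)) : ℂ) = if q.2 = true then 1 else 0 := by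
      split_ifs <;> norm_num
    rw [e] at h3
    exact h3
  have e2 : (Q.map fun q => Pool.Agent.U253.SPL.con z (pairing lam q)).sum +
      (Q.map fun q => Pool.Agent.U253.SPL.con z (pairing lam q + 1)).sum =
      (Q.map fun q => Pool.Agent.U253.SPL.Tc z (pairing lam q)).sum := by
    rw [← Multiset.sum_map_add]
    congr 1
    exact Multiset.map_congr rfl fun q _ => Pool.Agent.U253.SPL.con_pair z (pairing lam q)
  have e3 : (Q.map fun q => Pool.Agent.U253.SPL.con z (-pairing lam (θ q))).sum +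
      (Q.map fun q => Pool.Agent.U253.SPL.con z (-pairing lam (θ q) + 1)).sum =
      (Q.map fun q => Pool.Agent.U253.SPL.Tc z (pairing lam (θ q))).sum := by
    rw [← Multiset.sum_map_add]
    congr 1
    refine Multiset.map_congr rfl fun q _ => ?_
    rw [Pool.Agent.U253.SPL.con_pair z (-pairing lam (θ q)), Pool.Agent.U253.SPL.Tc_neg]
  rw [← e1, ← e2, ← e3]
  ring

theorem toList_sum {M : Type*} [AddCommMonoid M] (A : Multiset ℂ) (F : ℂ → M) :
    (A.toList.map F).sum = (A.map F).sum := by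
  conv_rhs => rw [← Multiset.coe_toList A, Multiset.map_coe, Multiset.sum_coe]

theorem ne_zero_of {r h : ℕ} (hh : 0 < h) {x : Fin r → ℂ} (hx : ∀ k, x k ≠ 0) {A : Multiset ℂ}
    {W : Multiset (Fin r → ℤ)} (hA : A.map (fun a => a ^ h) = W.map (eigenvalue x)) :
    ∀ a ∈ A, a ≠ 0 := by
  intro a ha
  have h1 : a ^ h ∈ W.map (eigenvalue x) := by
    rw [← hA]
    exact Multiset.mem_map_of_mem _ ha
  obtain ⟨μ, -, h2⟩ := Multiset.mem_map.1 h1
  intro h0
  rw [h0, zero_pow hh.ne'] at h2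
  exact Finset.prod_ne_zero_iff.2 (fun k _ => zpow_ne_zero (μ k) (hx k)) h2

theorem card_of {r h : ℕ} {x : Fin r → ℂ} {A : Multiset ℂ}
    {W : Multiset (Fin r → ℤ)} (hA : A.map (fun a => a ^ h) = W.map (eigenvalue x)) :
    A.card = W.card := by
  have := congrArg Multiset.card hA
  rwa [Multiset.card_map, Multiset.card_map] at this

theorem eig_hom {r : ℕ} {x : Fin r → ℂ} (hx : ∀ k, x k ≠ 0) (H : Subgroup ℂˣ) (m N : ℕ)
    {A : Set (Fin r → ℤ)} (hA : ∀ μ ∈ A, ∃ s ∈ H, (s : ℂ) = eigenvalue x μ ^ m)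
    (hN : ∀ μ : Fin r → ℤ, N • μ ∈ AddSubgroup.closure A) (k : Fin r) :
    ∃ s ∈ H, (s : ℂ) = x k ^ (m * N) := by
  classical
  have hmul : ∀ μ ν : Fin r → ℤ, eigenvalue x (μ + ν) = eigenvalue x μ * eigenvalue x ν := by
    intro μ ν
    unfold eigenvalue
    rw [← Finset.prod_mul_distrib]
    exact Finset.prod_congr rfl fun k _ => by rw [Pi.add_apply, zpow_add₀ (hx k)]
  have hneg : ∀ μ : Fin r → ℤ, eigenvalue x (-μ) = (eigenvalue x μ)⁻¹ := by
    intro μ
    unfold eigenvalue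
    rw [← Finset.prod_inv_distrib]
    exact Finset.prod_congr rfl fun k _ => by rw [Pi.neg_apply, zpow_neg]
  have key : ∀ μ ∈ AddSubgroup.closure A, ∃ s ∈ H, (s : ℂ) = eigenvalue x μ ^ m := by
    intro μ hμ
    induction hμ using AddSubgroup.closure_induction with
    | mem μ hμ => exact hA μ hμ
    | zero => exact ⟨1, H.one_mem, by simp [eigenvalue]⟩
    | add μ ν _ _ h1 h2 =>
      obtain ⟨s, hs, e1⟩ := h1
      obtain ⟨t, ht, e2⟩ := h2
      exact ⟨s * t, H.mul_mem hs ht, by rw [Units.val_mul, e1, e2, hmul, mul_pow]⟩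
    | neg μ _ h1 =>
      obtain ⟨s, hs, e1⟩ := h1
      exact ⟨s⁻¹, H.inv_mem hs, by rw [Units.val_inv_eq_inv_val, e1, hneg, inv_pow]⟩
  obtain ⟨s, hs, e⟩ := key _ (hN (Pi.single k 1))
  refine ⟨s, hs, ?_⟩
  rw [e]
  have h1 : eigenvalue x (N • (Pi.single k 1 : Fin r → ℤ)) = x k ^ N :=
    Pool.Agent.U253.SPL.mono_single x k N
  rw [h1, ← pow_mul, mul_comm]

theorem exp_hom {r : ℕ} {ν : Fin r → ℂ} (H : AddSubgroup ℂ) (m N : ℕ)
    {A : Set (Fin r → ℤ)} (hA : ∀ μ ∈ A, (m : ℂ) * Pool.Agent.U253.SPL.dc ν μ ∈ H)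
    (hN : ∀ μ : Fin r → ℤ, N • μ ∈ AddSubgroup.closure A) (k : Fin r) :
    ((m * N : ℕ) : ℂ) * ν k ∈ H := by
  classical
  have key : ∀ μ ∈ AddSubgroup.closure A, (m : ℂ) * Pool.Agent.U253.NFD.dcHom ν μ ∈ H := by
    intro μ hμ
    induction hμ using AddSubgroup.closure_induction with
    | mem μ hμ => exact hA μ hμ
    | zero =>
      rw [map_zero, mul_zero]
      exact H.zero_mem
    | add μ ν _ _ h1 h2 =>
      rw [map_add, mul_add]
      exact H.add_mem h1 h2
    | neg μ _ h1 =>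
      rw [map_neg, mul_neg]
      exact H.neg_mem h1
  have h1 := key _ (hN (Pi.single k 1))
  have h2 : Pool.Agent.U253.NFD.dcHom ν (N • (Pi.single k 1 : Fin r → ℤ)) = N * ν k :=
    Pool.Agent.U253.SPL.dc_single ν k N
  rw [h2] at h1
  have e : ((m * N : ℕ) : ℂ) * ν k = (m : ℂ) * (N * ν k) := by
    push_cast
    ring
  rw [e]
  exact h1

/-- **Algebraicity is inherited through one relation which holds on average.** -/
theorem result {J I : Type} [Fintype J] [Fintype I] {r r' : ℕ} (D₀ h₀ : ℕ) (hh₀ : 0 < h₀)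
    (W : J → Multiset (Fin r → ℤ)) (U : I → Multiset (Fin r' → ℤ)) (c : J → ℝ) (d : I → ℝ)
    (hW : FiniteKernel W) (hc : PositiveOnFaces W c) :
    ∃ M₀ : ℕ, 0 < M₀ ∧ ∀ (K : Type) [Field K] [NumberField K], Module.finrank ℚ K = D₀ →
    ∀ (S : Finset ℕ) (α : J → Ideal (𝓞 K) → Multiset ℂ) (β : I → Ideal (𝓞 K) → Multiset ℂ)
    (lam : (K →+* ℂ) → Fin r → ℂ) (lam' : (K →+* ℂ) → Fin r' → ℂ),
    Automorphic K h₀ W S α lam → Automorphic K h₀ U S β lam' →
    ∀ (g : ℕ → ℝ) (B : ℝ), (∀ p, 0 ≤ g p) →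
    (fun X : ℕ => ∑ p ∈ (Finset.range X).filter (fun p => p.Prime ∧ p ∉ S),
      g p * Real.log p) =o[atTop] (fun X : ℕ => √(X : ℝ)) →
    (∀ p : ℕ, p.Prime → p ∉ S →
      ((∀ v ∈ places K p, (∀ j, ∀ a ∈ α j v, ‖a‖ ≤ B) ∧ ∀ i, ∀ b ∈ β i v, ‖b‖ ≤ B) ∧
        ‖∑ v ∈ (places K p).filter (fun v => degree p v = 1),
          (trace c α v - trace d β v)‖ ≤ g p) ∨
      ∀ v ∈ places K p, (∀ j, ∀ a ∈ α j v, ‖a‖ ≤ g p ^ degree p v) ∧
        ∀ i, ∀ b ∈ β i v, ‖b‖ ≤ g p ^ degree p v) →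
    (∀ p : ℕ, p.Prime → p ∉ S → ∀ v ∈ places K p, ∃ x : Fin r → ℂ,
      (∀ k, ∃ s ∈ parameterGroup K d β p, (s : ℂ) = x k) ∧
      ∀ j, (α j v).map (fun a => a ^ M₀) = (W j).map (eigenvalue x)) ∧
    ∀ (τ : K →+* ℂ) (k : Fin r), (M₀ : ℂ) * lam τ k ∈ exponentGroup K d U lam' := by
  classical
  obtain ⟨N₀, hN₀, hFK⟩ := hW
  obtain ⟨m₁, hm₁, hfin⟩ := Pool.Agent.U253.NFD.fin_dep hc U d D₀ h₀ hh₀
  obtain ⟨m₂, hm₂, harc⟩ := Pool.Agent.U253.NFD.arch_dep hc U d D₀
  refine ⟨h₀ * (m₁ * m₂ * N₀), Nat.mul_pos hh₀ (Nat.mul_pos (Nat.mul_pos hm₁ hm₂) hN₀), ?_⟩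
  intro K _ _ hKd S α β lam lam' hπ hπ' g B hg hs h
  obtain ⟨hsat, hun, κ, κ', N, D, N', D', hHC, hND⟩ := hπ
  obtain ⟨hsat', hun', η, η', M, Δ, M', Δ', hHC', hND'⟩ := hπ'
  set f : Ideal (𝓞 K) → ℕ := Pool.Agent.U253.NFD.fdeg K with hfdef
  have hdeg : ∀ p : ℕ, p.Prime → ∀ v ∈ places K p, f v = degree p v :=
    fun p hp v hv => Pool.Agent.U253.NFD.fdeg_eq K hp hv
  have hf : ∀ p : ℕ, p.Prime → p ∉ S → ∀ v ∈ places K p, 0 < f v := by
    intro p hp _ v hv
    rw [hdeg p hp v hv]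
    exact ((Pool.Agent.U253.NFD.places_facts K hp).1 v hv).1
  have hd : ∀ p : ℕ, p.Prime → p ∉ S → ∑ v ∈ places K p, f v ≤ Module.finrank ℚ K := by
    intro p hp _
    rw [Finset.sum_congr rfl fun v hv => hdeg p hp v hv]
    exact (Pool.Agent.U253.NFD.places_facts K hp).2
  have hα0 : ∀ p : ℕ, p.Prime → p ∉ S → ∀ v ∈ places K p, ∀ j, ∀ a ∈ α j v, a ≠ 0 := by
    intro p hp hpS v hv j
    obtain ⟨x, hx, hxW⟩ := hsat p hp hpS v hv
    exact ne_zero_of hh₀ hx (hxW j)
  have hβ0 : ∀ p : ℕ, p.Prime → p ∉ S → ∀ v ∈ places K p, ∀ i, ∀ b ∈ β i v, b ≠ 0 := by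
    intro p hp hpS v hv i
    obtain ⟨x, hx, hxW⟩ := hsat' p hp hpS v hv
    exact ne_zero_of hh₀ hx (hxW i)
  -- both sides together
  set A : J ⊕ I → Ideal (𝓞 K) → Multiset ℂ := Sum.elim α β with hA
  set C : J ⊕ I → ℝ := Sum.elim c fun i => -d i with hC
  set n : J ⊕ I → ℕ := Sum.elim (fun j => (W j).card) fun i => (U i).card with hn
  set E : J ⊕ I → Ideal (𝓞 K) → List ℂ := fun q v => (A q v).toList with hE
  have hA0 : ∀ p : ℕ, p.Prime → p ∉ S → ∀ v ∈ places K p, ∀ q, ∀ a ∈ A q v, a ≠ 0 := by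
    rintro p hp hpS v hv (j | i)
    · exact hα0 p hp hpS v hv j
    · exact hβ0 p hp hpS v hv i
  have hAn : ∀ p : ℕ, p.Prime → p ∉ S → ∀ v ∈ places K p, ∀ q, (E q v).length = n q := by
    rintro p hp hpS v hv (j | i)
    · obtain ⟨x, hx, hxW⟩ := hsat p hp hpS v hv
      show (α j v).toList.length = (W j).card
      rw [Multiset.length_toList]
      exact card_of (hxW j)
    · obtain ⟨x, hx, hxW⟩ := hsat' p hp hpS v hv
      show (β i v).toList.length = (U i).card
      rw [Multiset.length_toList]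
      exact card_of (hxW i)
  have hherm : ∀ p : ℕ, p.Prime → p ∉ S → ∀ v ∈ places K p, ∀ q,
      ((E q v).map fun a => ((starRingEnd ℂ) a)⁻¹).Perm (E q v) := by
    intro p hp hpS v hv q
    have h1 : (A q v).map (fun a => ((starRingEnd ℂ) a)⁻¹) = A q v := by
      rcases q with j | i
      · exact hun p hp hpS v hv j
      · exact hun' p hp hpS v hv i
    rw [← Multiset.coe_eq_coe, ← coe_map, Multiset.coe_toList]
    exact h1
  have hfac : ∀ (q : J ⊕ I) (p : ℕ), p.Prime → ∀ s : ℂ, eulerFactor K (A q) p s =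
      ∏ v ∈ places K p, ((E q v).map fun a => (1 - a * ((p : ℂ) ^ (-s)) ^ f v)⁻¹).prod := by
    intro q p hp s
    unfold eulerFactor
    refine Finset.prod_congr rfl fun v hv => ?_
    rw [coe_map, Multiset.prod_coe]
    congr 1
    refine List.map_congr_left fun a _ => ?_
    rw [← Pool.Agent.U253.NFD.norm_cpow K hp hv s]
  have hfac' : ∀ (q : J ⊕ I) (p : ℕ), p.Prime → ∀ s : ℂ, eulerFactor K (dual (A q)) p s =
      ∏ v ∈ places K p, ((E q v).map fun a => (1 - a⁻¹ * ((p : ℂ) ^ (-s)) ^ f v)⁻¹).prod := by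
    intro q p hp s
    unfold eulerFactor dual
    refine Finset.prod_congr rfl fun v hv => ?_
    rw [Multiset.map_map, coe_map, Multiset.prod_coe]
    congr 1
    refine List.map_congr_left fun a _ => ?_
    rw [Function.comp_apply, ← Pool.Agent.U253.NFD.norm_cpow K hp hv s]
  have hgi : ∀ (κ : Multiset ℂ) (s : ℂ), invGamma κ s = Pool.Agent.N210.FV.gi κ.toList s := by
    intro κ s
    unfold invGamma
    rw [coe_map, Multiset.prod_coe]
    rfl
  set k₁ : J ⊕ I → Multiset ℂ := Sum.elim κ η with hk₁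
  set k₂ : J ⊕ I → Multiset ℂ := Sum.elim κ' η' with hk₂
  set N₁ : J ⊕ I → ℂ → ℂ := Sum.elim N M with hN₁
  set D₁ : J ⊕ I → ℂ → ℂ := Sum.elim D Δ with hD₁
  set N₂ : J ⊕ I → ℂ → ℂ := Sum.elim N' M' with hN₂
  set D₂ : J ⊕ I → ℂ → ℂ := Sum.elim D' Δ' with hD₂
  have hall : ∀ q, Continuation S (eulerFactor K (A q)) (N₁ q) (D₁ q) ∧
      Continuation S (eulerFactor K (dual (A q))) (N₂ q) (D₂ q) ∧
      FunctionalEquation S (k₁ q) (k₂ q) (N₁ q) (D₁ q) (N₂ q) (D₂ q) := by
    rintro (j | i)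
    · exact hND j
    · exact hND' i
  have hbd : ∀ p : ℕ, p.Prime → p ∉ S →
      ((∀ v ∈ places K p, ∀ q, ∀ a ∈ E q v, ‖a‖ ≤ B) ∧
        ‖∑ v ∈ (places K p).filter (fun v => f v = 1), ∑ q, (C q : ℂ) * (E q v).sum‖ ≤ g p) ∨
      ∀ v ∈ places K p, ∀ q, ∀ a ∈ E q v, ‖a‖ ≤ g p ^ f v := by
    intro p hp hpS
    rcases h p hp hpS with ⟨h1, h2⟩ | h1
    · left
      refine ⟨?_, ?_⟩
      · rintro v hv (j | i) a ha
        · exact (h1 v hv).1 j a (Multiset.mem_toList.1 ha)
        · exact (h1 v hv).2 i a (Multiset.mem_toList.1 ha)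
      · refine le_of_eq_of_le ?_ h2
        congr 1
        rw [Finset.filter_congr fun v hv => by rw [hdeg p hp v hv]]
        refine Finset.sum_congr rfl fun v _ => ?_
        rw [Fintype.sum_sum_type]
        unfold trace
        rw [sub_eq_add_neg, ← Finset.sum_neg_distrib]
        congr 1
        · refine Finset.sum_congr rfl fun j _ => ?_
          show (c j : ℂ) * (α j v).toList.sum = _
          rw [Multiset.sum_toList]
        · refine Finset.sum_congr rfl fun i _ => ?_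
          show ((-d i : ℝ) : ℂ) * (β i v).toList.sum = _
          rw [Multiset.sum_toList]
          push_cast
          ring
    · right
      rintro v hv (j | i) a ha
      · rw [hdeg p hp v hv]
        exact (h1 v hv).1 j a (Multiset.mem_toList.1 ha)
      · rw [hdeg p hp v hv]
        exact (h1 v hv).2 i a (Multiset.mem_toList.1 ha)
  obtain ⟨hz, harch⟩ := Pool.Agent.U253.NFD.gap_list (n := n) (c := C) (E := E)
    (m := fun q => (k₁ q).toList) (m' := fun q => (k₂ q).toList) (N := N₁) (D := D₁) (N' := N₂)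
    (D' := D₂) hf hd hAn hherm (fun q => by
      obtain ⟨⟨a1, a2, a3, a4, a5⟩, -⟩ := hall q
      refine ⟨a1, a2, a3, a4, fun s hs => (a5 s hs).congr fun X => Finset.prod_congr rfl fun p hp => ?_⟩
      exact hfac q p (Finset.mem_filter.1 hp).2.1 s) (fun q => by
      obtain ⟨-, ⟨a1, a2, a3, a4, a5⟩, -⟩ := hall q
      refine ⟨a1, a2, a3, a4, fun s hs => (a5 s hs).congr fun X => Finset.prod_congr rfl fun p hp => ?_⟩
      exact hfac' q p (Finset.mem_filter.1 hp).2.1 s) (fun q => by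
      obtain ⟨l, l', n, n', q', ε, hq, hε, b1, b2, b3, b4, hfe⟩ := (hall q).2.2
      refine ⟨l, l', n, n', q', ε, hq, hε, b1, b2, b3, b4, fun s => ?_⟩
      have h1 := hfe s
      rw [hgi, hgi] at h1
      exact h1) hg hs hbd
  have hE0 : ∀ p : ℕ, p.Prime → p ∉ S → ∀ q, ∀ b ∈ Pool.Agent.U253.NFD.lstE (places K p) f (E q), b ≠ 0 := by
    intro p hp hpS q b hb
    obtain ⟨v, hv, a, ha, hb'⟩ := Pool.Agent.U253.NFD.mem_lstE.1 hb
    have h1 := Pool.Agent.U253.NFD.blk_pow (hf p hp hpS v hv) hb'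
    intro h0
    rw [h0, zero_pow (hf p hp hpS v hv).ne'] at h1
    exact hA0 p hp hpS v hv q a (Multiset.mem_toList.1 ha) h1.symm
  have hG : ∀ p : ℕ, p.Prime → p ∉ S → ∀ G : ℂ → ℝ,
      ∑ j, c j * ((Pool.Agent.U253.NFD.lstE (places K p) f fun v => (α j v).toList).map G).sum =
      ∑ i, d i * ((Pool.Agent.U253.NFD.lstE (places K p) f fun v => (β i v).toList).map G).sum := by
    intro p hp hpS G
    have h1 := Pool.Agent.U253.NFD.list_all (hE0 p hp hpS) (hz p hp hpS) G
    rw [Fintype.sum_sum_type] at h1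
    simp only [hC, hE, hA, Sum.elim_inl, Sum.elim_inr, neg_mul, Finset.sum_neg_distrib] at h1
    linarith
  -- the archimedean relation
  set X : J ⊕ I → List ℂ := Sum.elim (fun j => ((pairs K (W j)).map (pairing lam)).toList)
    fun i => ((pairs K (U i)).map (pairing lam')).toList with hX
  have hinf : ∀ G : ℂ → ℝ,
      ∑ j, c j * ((pairs K (W j)).map fun q => G (pairing lam q) + G (-pairing lam q)).sum =
      ∑ i, d i * ((pairs K (U i)).map fun q => G (pairing lam' q) + G (-pairing lam' q)).sum := by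
    intro G
    have h1 := Pool.Agent.U253.NFD.arch_list (c := C) (X := X) (m := fun q => (k₁ q).toList)
      (m' := fun q => (k₂ q).toList) (fun q z => by
        rw [toList_sum, toList_sum]
        rcases q with j | i
        · rw [show X (Sum.inl j) = ((pairs K (W j)).map (pairing lam)).toList from rfl, toList_sum,
            Multiset.map_map]
          exact gamma_sym hHC j z
        · rw [show X (Sum.inr i) = ((pairs K (U i)).map (pairing lam')).toList from rfl, toList_sum,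
            Multiset.map_map]
          exact gamma_sym hHC' i z) harch G
    rw [Fintype.sum_sum_type] at h1
    simp only [hC, hX, Sum.elim_inl, Sum.elim_inr, neg_mul, Finset.sum_neg_distrib, toList_sum,
      Multiset.map_map] at h1
    exact add_neg_eq_zero.1 h1
  have hM1 : ∀ p : ℕ, p.Prime → p ∉ S → ∀ v ∈ places K p, ∀ j, ∀ a ∈ α j v,
      ∃ s ∈ parameterGroup K d β p, (s : ℂ) = a ^ m₁ := by
    intro p hp hpS v hv j a ha
    refine hfin (Ideal (𝓞 K)) (places K p) f α β (hf p hp hpS) ?_ (hsat p hp hpS) (hsat' p hp hpS)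
      (hG p hp hpS) v hv j a ha
    rw [← hKd]
    exact hd p hp hpS
  refine ⟨fun p hp hpS v hv => ?_, fun τ k => ?_⟩
  · obtain ⟨x, hx, hxW⟩ := hsat p hp hpS v hv
    set H := parameterGroup K d β p with hH
    have h1 : ∀ μ ∈ {μ | ∃ j, μ ∈ W j}, ∃ s ∈ H, (s : ℂ) = eigenvalue x μ ^ m₁ := by
      rintro μ ⟨j, hμ⟩
      have h2 : eigenvalue x μ ∈ (α j v).map fun a => a ^ h₀ := by
        rw [hxW j]
        exact Multiset.mem_map_of_mem _ hμ
      obtain ⟨a, ha, e⟩ := Multiset.mem_map.1 h2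
      obtain ⟨s, hs, e1⟩ := hM1 p hp hpS v hv j a ha
      refine ⟨s ^ h₀, H.pow_mem hs _, ?_⟩
      rw [Units.val_pow_eq_pow_val, e1, ← e, ← pow_mul, ← pow_mul, mul_comm]
    refine ⟨fun k => x k ^ (m₁ * m₂ * N₀), fun k => ?_, fun j => ?_⟩
    · obtain ⟨s, hs, e⟩ := eig_hom hx H m₁ N₀ h1 hFK k
      refine ⟨s ^ m₂, H.pow_mem hs _, ?_⟩
      rw [Units.val_pow_eq_pow_val, e, ← pow_mul]
      congr 1
      ring
    · have h2 := congrArg (Multiset.map fun z : ℂ => z ^ (m₁ * m₂ * N₀)) (hxW j)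
      rw [Multiset.map_map, Multiset.map_map] at h2
      refine Eq.trans ?_ (h2.trans ?_)
      · exact Multiset.map_congr rfl fun a _ => pow_mul a _ _
      · refine Multiset.map_congr rfl fun μ _ => ?_
        exact (Pool.Agent.U253.NFD.mono_pow x (m₁ * m₂ * N₀) μ).symm
  · set H := exponentGroup K d U lam' with hH
    have h1 : ∀ μ ∈ {μ | ∃ j, μ ∈ W j}, (m₂ : ℂ) * Pool.Agent.U253.SPL.dc (lam τ) μ ∈ H := by
      rintro μ ⟨j, hμ⟩
      refine harc (K →+* ℂ) ?_ lam lam' (fun G => ?_) τ j μ hμ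
      · rw [← hKd]
        exact NumberField.Embeddings.card K ℂ
      · have h2 := hinf G
        have e : ∀ {r₀ : ℕ} (ℓ : (K →+* ℂ) → Fin r₀ → ℂ) (L : Multiset (Fin r₀ → ℤ)),
            ((pairs K L).map fun q => G (pairing ℓ q) + G (-pairing ℓ q)).sum =
            ∑ τ, (L.map fun μ => G (Pool.Agent.U253.SPL.dc (ℓ τ) μ) +
              G (-Pool.Agent.U253.SPL.dc (ℓ τ) μ)).sum := by
          intro r₀ ℓ L
          have e : pairs K L = (Finset.univ : Finset (K →+* ℂ)).val.bind fun τ => L.map (Prod.mk τ) := rfl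
          rw [e, Multiset.map_bind, Multiset.sum_bind]
          show ∑ τ, _ = _
          refine Finset.sum_congr rfl fun τ _ => ?_
          rw [Multiset.map_map]
          rfl
        simp only [e] at h2
        exact h2
    have h2 := exp_hom H m₂ N₀ h1 hFK k
    have e : ((h₀ * (m₁ * m₂ * N₀) : ℕ) : ℂ) * lam τ k = (h₀ * m₁) • (((m₂ * N₀ : ℕ) : ℂ) * lam τ k) := by
      rw [nsmul_eq_mul]
      push_cast
      ring
    rw [e]
    exact H.nsmul_mem h2 _

end Pool.Agent.Results.MP_666dc0_nt.TransferOfAlgebraicity
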